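import Pool.Agent.W819.EN.Stm

/-!
# EN-MANY: many vertices with many layers
-/

set_option autoImplicit false

namespace Pool.Agent.W290.EN

open H974 Finset Filter Topology MeasureTheory
open scoped Real
open Pool.Agent.W819.EN

lemma dL_pos (hA : LegA) (s : ℝ) : 0 < dL s := by
  have h1 : dL (s - 1) < dL s := hA.mono (by linarith)
  have h2 : 0 ≤ dL (s - 1) := by
    refine le_of_tendsto hA.bot ?_
    filter_upwards [eventually_le_atBot (s - 1)] with x hx
    exact hA.mono.monotone hx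
  linarith

lemma gam_nonneg (hB : LegB) (s : ℝ) : 0 ≤ gam s := by
  rcases le_total s 0 with h | h
  · have := hB.gneg.antitoneOn (Set.mem_Iic.mpr h) (Set.mem_Iic.mpr le_rfl) h
    rwa [hB.gzero] at this
  · have := hB.gpos.monotoneOn (Set.mem_Ici.mpr le_rfl) (Set.mem_Ici.mpr h) h
    rwa [hB.gzero] at this

/-- integer root -/
lemma exists_root (K : ℕ) (hK : 0 < K) (n : ℕ) : ∃ b : ℕ, b ^ K ≤ n ∧ n < (b + 1) ^ K := by
  have hex : ∃ c : ℕ, n < c ^ K := ⟨n + 1, lt_of_lt_of_le (Nat.lt_succ_self n)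
    (Nat.le_self_pow hK.ne' _)⟩
  classical
  set c := Nat.find hex with hc
  have h1 : n < c ^ K := Nat.find_spec hex
  have h0 : c ≠ 0 := by
    intro h
    rw [h, zero_pow hK.ne'] at h1
    omega
  refine ⟨c - 1, ?_, ?_⟩
  · have := Nat.find_min hex (m := c - 1) (by omega)
    omega
  · rw [Nat.sub_add_cancel (Nat.pos_of_ne_zero h0)]; exact h1

/-- superadditivity over the annuli -/
lemma sum_layers {N : Finset Edg → Vtx → ℕ → ℕ → ℕ} (hG : Geo N) (F : Finset Edg) (v : Vtx)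
    (b : ℕ) (hb : 2 ≤ b) : ∀ m : ℕ, ∑ j ∈ range (m + 1), N F v (rj b j) (Rj b j)
      ≤ N F v 0 (Rj b m) := by
  intro m
  induction m with
  | zero => simp [rj]
  | succ m ih =>
    rw [Finset.sum_range_succ]
    have h1 : Rj b m < rj b (m + 1) := by
      unfold Rj rj
      have : 0 < b ^ (m + 1) := pow_pos (by omega) _
      simp only [Nat.succ_ne_zero, if_false]
      omega
    have h2 : rj b (m + 1) ≤ Rj b (m + 1) := by
      unfold Rj rj
      simp only [Nat.succ_ne_zero, if_false]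
      have : b ^ (m + 1 + 1) = b ^ (m + 1) * b := pow_succ _ _
      rw [this]
      have : 0 < b ^ (m + 1) := pow_pos (by omega) _
      nlinarith
    exact (Nat.add_le_add_right ih _).trans (hG.super F v 0 (Rj b m) (rj b (m + 1)) (Rj b (m + 1))
      (Nat.zero_le _) h1 h2)

lemma bx_sub {v : Vtx} {a b : ℤ} (h : a ≤ b) : bx v a ⊆ bx v b := by
  unfold bx
  exact RE_subset (by omega) (by omega) (by omega) (by omega)

lemma vb_sub {a b : ℕ} (h : a ≤ b) : vb a ⊆ vb b := by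
  intro v hv
  unfold vb at hv ⊢
  simp only [mem_product, mem_Icc] at hv ⊢
  have : (a : ℤ) ≤ b := by exact_mod_cast h
  omega

/-- eventual comparison of logarithms -/
lemma ev_log (η : ℝ) (hη : 0 < η) : ∀ᶠ b : ℕ in atTop,
    Real.log ((b : ℝ) + 1) ≤ (1 + η) * Real.log b := by
  have h1 : Tendsto (fun b : ℕ => η * Real.log (b : ℝ)) atTop atTop :=
    (Real.tendsto_log_atTop.comp tendsto_natCast_atTop_atTop).const_mul_atTop hη
  filter_upwards [h1.eventually_ge_atTop (Real.log 2), eventually_ge_atTop 1] with b h2 h3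
  have hb : (1 : ℝ) ≤ b := by exact_mod_cast h3
  have h4 : Real.log ((b : ℝ) + 1) ≤ Real.log (2 * b) :=
    Real.log_le_log (by linarith) (by linarith)
  rw [Real.log_mul (by norm_num) (by linarith)] at h4
  linarith

/-- eventual comparison of powers -/
lemma ev_pow (x y : ℝ) (hx : 0 ≤ x) (hxy : x < y) : ∀ᶠ b : ℕ in atTop,
    ((b : ℝ) + 1) ^ x ≤ (b : ℝ) ^ y / 2 := by
  have h1 : Tendsto (fun b : ℕ => (b : ℝ) ^ (y - x)) atTop atTop :=
    (tendsto_rpow_atTop (by linarith)).comp tendsto_natCast_atTop_atTop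
  filter_upwards [h1.eventually_ge_atTop ((2 : ℝ) ^ (x + 1)), eventually_ge_atTop 1] with b h2 h3
  have hb : (1 : ℝ) ≤ b := by exact_mod_cast h3
  have hb0 : (0 : ℝ) < b := by linarith
  have h4 : ((b : ℝ) + 1) ^ x ≤ (2 * b) ^ x :=
    Real.rpow_le_rpow (by linarith) (by linarith) hx
  rw [Real.mul_rpow (by norm_num) hb0.le] at h4
  have h5 : (b : ℝ) ^ y = (b : ℝ) ^ (y - x) * (b : ℝ) ^ x := by
    rw [← Real.rpow_add hb0]; congr 1; ring
  have h6 : (2 : ℝ) ^ (x + 1) = 2 ^ x * 2 := by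
    rw [Real.rpow_add (by norm_num), Real.rpow_one]
  rw [h6] at h2
  have h7 : 0 ≤ (b : ℝ) ^ x := Real.rpow_nonneg hb0.le _
  rw [h5]
  nlinarith

lemma ev_exp (K : ℕ) : ∀ᶠ b : ℕ in atTop, ((b : ℝ) + 1) ^ K ≤ Real.exp b := by
  have h := (Real.isLittleO_pow_exp_atTop (n := K)).bound (show (0 : ℝ) < 1 / 2 ^ K by positivity)
  have h2 := tendsto_natCast_atTop_atTop (R := ℝ) |>.eventually h
  filter_upwards [h2, eventually_ge_atTop 1] with b h3 h4
  have hb : (1 : ℝ) ≤ b := by exact_mod_cast h4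
  rw [Real.norm_of_nonneg (by positivity), Real.norm_of_nonneg (Real.exp_pos _).le] at h3
  have h5 : ((b : ℝ) + 1) ^ K ≤ (2 * b) ^ K := pow_le_pow_left₀ (by linarith) (by linarith) K
  rw [mul_pow] at h5
  have h6 : (2 : ℝ) ^ K * (1 / 2 ^ K * Real.exp b) = Real.exp b := by field_simp
  have h7 := mul_le_mul_of_nonneg_left h3 (show (0 : ℝ) ≤ 2 ^ K by positivity)
  rw [h6] at h7
  linarith

open Classical in
lemma cnt_le {N : Finset Edg → Vtx → ℕ → ℕ → ℕ} {b J : ℕ} {Q : ℕ → Set ℕ} {V W : Finset Vtx}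
    {F : Finset Edg} (h : ∀ v ∈ V, Gd N b J Q v F → v ∈ W) : cnt N b J Q V F ≤ W.card := by
  unfold cnt
  apply Finset.card_le_card
  intro v hv
  rw [Finset.mem_filter] at hv
  exact h v hv.1 hv.2

theorem t_MANY (hA : LegA) (hB : LegB) {N : Finset Edg → Vtx → ℕ → ℕ → ℕ} (hG : Geo N)
    (hD : Dev N) (hS : Sec N) : Many N := by
  intro s1 s0 ε hs hε hg2
  set ν0 := dL s0 with hν0
  set ν1 := dL s1 with hν1
  have hν1pos : 0 < ν1 := dL_pos hA s1
  have hν : ν1 < ν0 := hA.mono hs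
  have hgn : 0 ≤ gam s0 := gam_nonneg hB s0
  obtain ⟨ε', hε'0, hε'1, hε'2⟩ : ∃ ε' : ℝ, 0 < ε' ∧ ε' < ε / 4 ∧ gam s0 + ε' < 2 := by
    refine ⟨min (ε / 8) ((2 - gam s0) / 2), lt_min (by linarith) (by linarith), ?_, ?_⟩
    · exact lt_of_le_of_lt (min_le_left _ _) (by linarith)
    · have := min_le_right (ε / 8) ((2 - gam s0) / 2)
      linarith
  set g := gam s0 + ε' with hg
  set d := (ν0 - ν1) / 4 with hd
  have hd0 : 0 < d := by rw [hd]; linarith
  have hν01 : ν0 = ν1 + 4 * d := by rw [hd]; ring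
  obtain ⟨J, hJ1, hJ2, hJ3⟩ : ∃ J : ℕ, 1 ≤ J ∧ 5 * ν0 ≤ d * J ∧ 20 ≤ ε * J := by
    obtain ⟨J1, hJ1⟩ := exists_nat_ge (5 * ν0 / d)
    obtain ⟨J2, hJ2⟩ := exists_nat_ge (20 / ε)
    refine ⟨max 1 (max J1 J2), le_max_left _ _, ?_, ?_⟩
    · have h1 : (J1 : ℝ) ≤ ((max 1 (max J1 J2) : ℕ) : ℝ) := by
        exact_mod_cast le_trans (le_max_left _ _) (le_max_right _ _)
      have h2 := hJ1.trans h1
      rw [div_le_iff₀ hd0] at h2
      linarith
    · have h1 : (J2 : ℝ) ≤ ((max 1 (max J1 J2) : ℕ) : ℝ) := by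
        exact_mod_cast le_trans (le_max_right _ _) (le_max_right _ _)
      have h2 := hJ2.trans h1
      rw [div_le_iff₀ hε] at h2
      linarith
  have hJr : (1 : ℝ) ≤ J := by exact_mod_cast hJ1
  set θ := max (2 - gam s0 - ε) 0 with hθ
  have hθ0 : 0 ≤ θ := le_max_right _ _
  have hxy : ((J : ℝ) + 5) * θ < (2 - g) * J := by
    rcases le_total (2 - gam s0 - ε) 0 with h | h
    · have : θ = 0 := max_eq_right h
      rw [this, mul_zero]
      exact mul_pos (by linarith) (by linarith)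
    · have : θ = 2 - gam s0 - ε := max_eq_left h
      rw [this]
      have h1 : (2 - gam s0 - ε) ≤ 2 := by linarith
      have h2 : (3 / 4 * ε) * J ≤ (ε - ε') * J :=
        mul_le_mul_of_nonneg_right (by linarith) (by linarith)
      nlinarith
  have hx0 : 0 ≤ ((J : ℝ) + 5) * θ := by positivity
  obtain ⟨b0, hb0⟩ := hD s0 d ε' J hd0 hε'0
  obtain ⟨b1, hb1⟩ := hS J hJ1 g (by linarith) hε'2
  have hη : 0 < 2 * d / ν1 := by positivity
  obtain ⟨B, hB'⟩ := eventually_atTop.mp ((ev_log (2 * d / ν1) hη).and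
    ((ev_pow _ _ hx0 hxy).and ((ev_exp (2 * (J + 5))).and
      ((eventually_ge_atTop b0).and ((eventually_ge_atTop b1).and (eventually_ge_atTop 2))))))
  refine ⟨(B + 1) ^ (J + 5), ?_⟩
  intro n hn S hSub
  obtain ⟨b, hbn, hnb⟩ := exists_root (J + 5) (by omega) n
  have hBb : B ≤ b := by
    by_contra hcon
    have h1 : b + 1 ≤ B + 1 := by omega
    have h2 := Nat.pow_le_pow_left h1 (J + 5)
    omega
  obtain ⟨f1, f2, f3, f4, f5, f6⟩ := hB' b hBb
  have hbr : (2 : ℝ) ≤ b := by exact_mod_cast f6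
  have hlb : 0 < Real.log b := Real.log_pos (by linarith)
  have hn1 : 1 ≤ n := le_trans (Nat.one_le_pow _ _ (by omega)) hbn
  have hnr : (1 : ℝ) ≤ n := by exact_mod_cast hn1
  have hnbr : (n : ℝ) ≤ ((b : ℝ) + 1) ^ (J + 5) := by exact_mod_cast hnb.le
  let Q : ℕ → Set ℕ := fun _ => {k | |(k : ℝ) - ν0 * Real.log b| ≤ d * Real.log b}
  have hDev : ∀ j < J, (b : ℝ) ^ (-g) ≤
      Pr P2 (bx (0, 0) (Rj b j)) (fun F => N F (0, 0) (rj b j) (Rj b j) ∈ Q j) := by
    intro j hj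
    have h1 := hb0 b f4 j hj
    have e : -(gam s0) - ε' = -g := by rw [hg]; ring
    rw [e] at h1
    exact h1
  have hSub2 : bx (0, 0) (2 * (b : ℤ) ^ (J + 5)) ⊆ S := by
    refine (bx_sub ?_).trans hSub
    have : (b : ℤ) ^ (J + 5) ≤ n := by exact_mod_cast hbn
    linarith
  have hmain := hb1 b f5 Q hDev S hSub2
  have hexp : Real.exp (-(b : ℝ)) ≤ 1 / (n : ℝ) ^ 2 := by
    rw [Real.exp_neg, ← one_div]
    apply one_div_le_one_div_of_le (by positivity)
    refine le_trans ?_ f3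
    rw [mul_comm 2 (J + 5), pow_mul]
    exact pow_le_pow_left₀ (by positivity) hnbr 2
  refine le_trans (le_trans (Pr_mono (okq (q := 1 / 2) (by norm_num) (by norm_num)) ?_) hmain) hexp
  intro F _ hF
  -- the number of good vertices is smaller
  have hlogn : Real.log n ≤ ((J : ℝ) + 5) * Real.log ((b : ℝ) + 1) := by
    have h1 : Real.log n ≤ Real.log (((b : ℝ) + 1) ^ (J + 5)) :=
      Real.log_le_log (by linarith) hnbr
    rw [Real.log_pow] at h1
    push_cast at h1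
    exact h1
  have hgood : ∀ v : Vtx, Gd N b J Q v F → ν1 * Real.log n ≤ (N F v 0 n : ℝ) := by
    intro v hv
    have h1 := sum_layers hG F v b f6 (J - 1)
    rw [Nat.sub_add_cancel hJ1] at h1
    have h2 : Rj b (J - 1) ≤ n := by
      refine le_trans ?_ hbn
      unfold Rj
      rw [Nat.sub_add_cancel hJ1, pow_add]
      have h3 : 0 < b ^ J := pow_pos (by omega) _
      have h4 : 2 ≤ b ^ 5 := by
        calc 2 ≤ b := f6
          _ ≤ b ^ 5 := Nat.le_self_pow (by norm_num) b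
      nlinarith
    have h3 := hG.mono F v 0 0 (Rj b (J - 1)) n le_rfl h2
    have h4 : ((∑ j ∈ range J, N F v (rj b j) (Rj b j) : ℕ) : ℝ) ≤ (N F v 0 n : ℝ) := by
      exact_mod_cast h1.trans h3
    have h5 : (J : ℝ) * ((ν0 - d) * Real.log b)
        ≤ ((∑ j ∈ range J, N F v (rj b j) (Rj b j) : ℕ) : ℝ) := by
      push_cast
      have h6 : ∑ j ∈ range J, ((ν0 - d) * Real.log b)
          ≤ ∑ j ∈ range J, (N F v (rj b j) (Rj b j) : ℝ) := by
        apply Finset.sum_le_sum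
        intro j hj
        have h7 : |(N F v (rj b j) (Rj b j) : ℝ) - ν0 * Real.log b| ≤ d * Real.log b :=
          hv j (mem_range.mp hj)
        have h8 := (abs_le.mp h7).1
        linarith
      rw [Finset.sum_const, card_range, nsmul_eq_mul] at h6
      exact h6
    have h9 : ν1 * Real.log n ≤ ν1 * (((J : ℝ) + 5) * ((1 + 2 * d / ν1) * Real.log b)) := by
      apply mul_le_mul_of_nonneg_left _ hν1pos.le
      refine hlogn.trans ?_
      exact mul_le_mul_of_nonneg_left f1 (by linarith)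
    have h10 : ν1 * (((J : ℝ) + 5) * ((1 + 2 * d / ν1) * Real.log b))
        = ((J : ℝ) + 5) * (ν1 + 2 * d) * Real.log b := by
      field_simp
    have h11 : ((J : ℝ) + 5) * (ν1 + 2 * d) ≤ J * (ν0 - d) := by
      rw [hν01] at hJ2 ⊢
      nlinarith
    have h12 := mul_le_mul_of_nonneg_right h11 hlb.le
    rw [h10] at h9
    calc ν1 * Real.log n ≤ ((J : ℝ) + 5) * (ν1 + 2 * d) * Real.log b := h9
      _ ≤ J * (ν0 - d) * Real.log b := h12
      _ = (J : ℝ) * ((ν0 - d) * Real.log b) := by ring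
      _ ≤ _ := h5
      _ ≤ _ := h4
  have hcnt : (cnt N b J Q (vb (b ^ (J + 5))) F : ℝ) ≤
      (((vb n).filter (fun v => ν1 * Real.log n ≤ (N F v 0 n : ℝ))).card : ℝ) := by
    have hcard : cnt N b J Q (vb (b ^ (J + 5))) F ≤
        ((vb n).filter (fun v => ν1 * Real.log n ≤ (N F v 0 n : ℝ))).card := by
      apply cnt_le
      intro v hv1 hv2
      rw [Finset.mem_filter]
      exact ⟨vb_sub hbn hv1, hgood v hv2⟩
    exact_mod_cast hcard
  have hpow : (n : ℝ) ^ (2 - gam s0 - ε) ≤ (b : ℝ) ^ ((2 - g) * J) / 2 := by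
    refine le_trans ?_ f2
    calc (n : ℝ) ^ (2 - gam s0 - ε) ≤ (n : ℝ) ^ θ :=
          Real.rpow_le_rpow_of_exponent_le hnr (le_max_left _ _)
      _ ≤ (((b : ℝ) + 1) ^ (J + 5)) ^ θ := Real.rpow_le_rpow (by positivity) hnbr hθ0
      _ = ((b : ℝ) + 1) ^ (((J : ℝ) + 5) * θ) := by
          rw [← Real.rpow_natCast, ← Real.rpow_mul (by positivity)]
          push_cast
          rfl
  exact lt_of_le_of_lt hcnt (lt_of_lt_of_le hF hpow)

end Pool.Agent.W290.EN
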